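import Pool.Agent.helper78.FS.Spec

/-!
# fs:GSP (MP_55808c_co): separation of the grid points
-/

namespace Pool.Agent.helper78.FS

open Finset Real
open Classical

noncomputable section

/-- the distance of two grid points. -/
theorem GSP_dist (t r : ℝ) (n : ℕ) (i i' : ZMod (2 * n)) (j j' : ℕ) :
    dist (gr t r n i j) (gr t r n i' j') ^ 2 =
      r ^ 2 * (2 - 2 * cos (j * π / n) * cos (j' * π / n) - 2 * sin (j * π / n) * sin (j' * π / n) *
        cos (((i.val : ℝ) + 1 / 2) * π / n - ((i'.val : ℝ) + 1 / 2) * π / n)) := by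
  rw [EuclideanSpace.dist_eq, Real.sq_sqrt (Finset.sum_nonneg fun k _ => sq_nonneg _), Fin.sum_univ_three]
  rw [Real.cos_sub (((i.val : ℝ) + 1 / 2) * π / n) (((i'.val : ℝ) + 1 / 2) * π / n)]
  simp only [gr, Real.dist_eq, sq_abs]
  simp only [Matrix.cons_val_zero, Matrix.cons_val_one, Matrix.cons_val]
  generalize (((i.val : ℝ) + 1 / 2) * π / n) = a
  generalize (((i'.val : ℝ) + 1 / 2) * π / n) = b
  generalize ((j : ℝ) * π / n) = θ
  generalize ((j' : ℝ) * π / n) = θ'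
  have h1 := Real.sin_sq_add_cos_sq t
  have h2 := Real.sin_sq_add_cos_sq θ
  have h3 := Real.sin_sq_add_cos_sq θ'
  have h4 := Real.sin_sq_add_cos_sq a
  have h5 := Real.sin_sq_add_cos_sq b
  have e : ∀ X X' Y Y' Z Z' c d : ℝ, d ^ 2 + c ^ 2 = 1 →
      (c * X + d * Z - (c * X' + d * Z')) ^ 2 + (Y - Y') ^ 2 + (-d * X + c * Z - (-d * X' + c * Z')) ^ 2 =
        (X - X') ^ 2 + (Y - Y') ^ 2 + (Z - Z') ^ 2 := by
    intro X X' Y Y' Z Z' c d h
    linear_combination ((X - X') ^ 2 + (Z - Z') ^ 2) * h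
  rw [e _ _ _ _ _ _ _ _ h1]
  linear_combination (r ^ 2 * sin θ ^ 2) * h4 + (r ^ 2 * sin θ' ^ 2) * h5 + r ^ 2 * h2 + r ^ 2 * h3

theorem GSP_sin (n k : ℕ) (hn : 0 < n) (h1 : 1 ≤ k) (h2 : k < 2 * n) : 1 / (n : ℝ) ≤ sin (k * π / (2 * n)) := by
  have hn0 : (0 : ℝ) < n := by exact_mod_cast hn
  have key : ∀ m : ℕ, 1 ≤ m → m ≤ n → 1 / (n : ℝ) ≤ sin (m * π / (2 * n)) := by
    intro m hm hmn
    have hm1 : (1 : ℝ) ≤ m := by exact_mod_cast hm
    have hmn1 : (m : ℝ) ≤ n := by exact_mod_cast hmn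
    have h3 : 0 ≤ (m : ℝ) * π / (2 * n) := by positivity
    have h4 : (m : ℝ) * π / (2 * n) ≤ π / 2 := by
      rw [div_le_div_iff₀ (by positivity) (by norm_num)]
      nlinarith [Real.pi_pos]
    have h5 := Real.mul_le_sin h3 h4
    refine le_trans ?_ h5
    have h6 : 2 / π * ((m : ℝ) * π / (2 * n)) = m / n := by
      have := Real.pi_ne_zero
      field_simp
    rw [h6]
    gcongr
  rcases le_or_gt k n with h | h
  · exact key k h1 h
  · have h3 := key (2 * n - k) (by omega) (by omega)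
    have h4 : (((2 * n - k : ℕ) : ℝ)) * π / (2 * n) = π - k * π / (2 * n) := by
      rw [Nat.cast_sub h2.le]
      push_cast
      field_simp
    rw [h4, Real.sin_pi_sub] at h3
    exact h3

/-- the square of the sine is bounded below. -/
theorem GSP_sq (n : ℕ) (a b : ℕ) (hn : 0 < n) (ha : a < 2 * n) (hb : b < 2 * n) (hne : a ≠ b) :
    (1 / (n : ℝ)) ^ 2 ≤ sin (((a : ℝ) - b) * π / (2 * n)) ^ 2 := by
  have hn0 : (0 : ℝ) < n := by exact_mod_cast hn
  have h0 : (0 : ℝ) ≤ 1 / n := by positivity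
  rcases lt_or_gt_of_ne hne with h | h
  · have h1 := GSP_sin n (b - a) hn (by omega) (by omega)
    rw [Nat.cast_sub h.le] at h1
    have h2 : ((a : ℝ) - b) * π / (2 * n) = -(((b : ℝ) - a) * π / (2 * n)) := by ring
    rw [h2, Real.sin_neg, neg_sq]
    exact pow_le_pow_left₀ h0 h1 2
  · have h1 := GSP_sin n (a - b) hn (by omega) (by omega)
    rw [Nat.cast_sub h.le] at h1
    exact pow_le_pow_left₀ h0 h1 2

/-- GSP. -/
theorem GSP : GSP_stmt := by
  intro t r s n _ hr hs0 hs1 i i' j j' hj hj' hs hne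
  have hn : 0 < n := Nat.pos_of_ne_zero (NeZero.ne n)
  have hn0 : (0 : ℝ) < n := by exact_mod_cast hn
  have hsin : ∀ k : ℕ, k ≤ n → 0 ≤ sin (k * π / n) := by
    intro k hk
    have hk1 : (k : ℝ) ≤ n := by exact_mod_cast hk
    refine Real.sin_nonneg_of_nonneg_of_le_pi (by positivity) ?_
    rw [div_le_iff₀ hn0]
    nlinarith [Real.pi_pos]
  have hkey : (2 * s * r / n) ^ 2 ≤ dist (gr t r n i j) (gr t r n i' j') ^ 2 := by
    rw [GSP_dist]
    by_cases hjj : j = j'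
    · subst hjj
      have hii : i ≠ i' := fun h => hne (by rw [h])
      have hv : i.val ≠ i'.val := fun h => hii (ZMod.val_injective _ h)
      have hlt : i.val < 2 * n := ZMod.val_lt i
      have hlt' : i'.val < 2 * n := ZMod.val_lt i'
      have h1 := GSP_sq n i.val i'.val hn hlt hlt' hv
      have h2 : ((i.val : ℝ) + 1 / 2) * π / n - ((i'.val : ℝ) + 1 / 2) * π / n = 2 * (((i.val : ℝ) - i'.val) * π / (2 * n)) := by
        field_simp
        ring
      rw [h2, Real.cos_two_mul']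
      set x : ℝ := ((i.val : ℝ) - i'.val) * π / (2 * n) with hx
      have h3 := Real.sin_sq_add_cos_sq (j * π / n)
      have h4 := Real.sin_sq_add_cos_sq x
      have h5 : 2 - 2 * cos (j * π / n) * cos (j * π / n) - 2 * sin (j * π / n) * sin (j * π / n) * (cos x ^ 2 - sin x ^ 2) =
          4 * (sin (j * π / n) ^ 2 * sin x ^ 2) := by
        linear_combination (-2) * h3 - (2 * sin (j * π / n) ^ 2) * h4
      rw [h5]
      have h6 : s ^ 2 ≤ sin (j * π / n) ^ 2 := pow_le_pow_left₀ hs0 hs 2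
      have h7 : s ^ 2 * (1 / (n : ℝ)) ^ 2 ≤ sin (j * π / n) ^ 2 * sin x ^ 2 := mul_le_mul h6 h1 (by positivity) (by positivity)
      calc (2 * s * r / n) ^ 2 = r ^ 2 * (4 * (s ^ 2 * (1 / (n : ℝ)) ^ 2)) := by ring
        _ ≤ r ^ 2 * (4 * (sin (j * π / n) ^ 2 * sin x ^ 2)) := by gcongr
    · have h1 := GSP_sq n j j' hn (by omega) (by omega) hjj
      have h2 : 0 ≤ sin (j * π / n) * sin (j' * π / n) := mul_nonneg (hsin j hj) (hsin j' hj')
      set c : ℝ := cos (((i.val : ℝ) + 1 / 2) * π / n - ((i'.val : ℝ) + 1 / 2) * π / n) with hc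
      have hc1 : c ≤ 1 := Real.cos_le_one _
      set x : ℝ := ((j : ℝ) - j') * π / (2 * n) with hx
      have h3 : (j : ℝ) * π / n - j' * π / n = 2 * x := by
        rw [hx]
        field_simp
      have h4 := Real.cos_sub (j * π / n) (j' * π / n)
      rw [h3, Real.cos_two_mul'] at h4
      have h5 := Real.sin_sq_add_cos_sq x
      have h6 : 4 * sin x ^ 2 ≤ 2 - 2 * cos (j * π / n) * cos (j' * π / n) - 2 * sin (j * π / n) * sin (j' * π / n) * c := by
        nlinarith [mul_nonneg h2 (sub_nonneg.2 hc1)]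
      have h7 : s ^ 2 ≤ 1 := by nlinarith
      calc (2 * s * r / n) ^ 2 = r ^ 2 * (4 * (s ^ 2 * (1 / (n : ℝ)) ^ 2)) := by ring
        _ ≤ r ^ 2 * (4 * (1 * (1 / (n : ℝ)) ^ 2)) := by gcongr
        _ = r ^ 2 * (4 * (1 / (n : ℝ)) ^ 2) := by ring
        _ ≤ r ^ 2 * (4 * sin x ^ 2) := by gcongr
        _ ≤ _ := by gcongr
  exact le_of_sq_le_sq hkey dist_nonneg

end

end Pool.Agent.helper78.FS
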