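import Pool.Agent.helper78.FS.Spec

/-! Row fs:PTA of the project FS (MP_55808c_co): assembly of part A.  helper36 -/

namespace Pool.Agent.helper78.FS

open Finset Real
open Classical

theorem PTA : PTA_stmt := by
  intro hSIA hMRG hPKG hCLU hNB1 hNB2 hNB3 hNB4 ε hε N hN
  set ε' : ℝ := min ε (1 / 2) with hε'
  have he0 : 0 < ε' := lt_min hε (by norm_num)
  have he1 : ε' < 1 := lt_of_le_of_lt (min_le_right _ _) (by norm_num)
  have hee : ε' ≤ ε := min_le_left _ _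
  set Rm : ℝ := 3 ^ N * N with hRm
  have hN1 : (1 : ℝ) ≤ N := by exact_mod_cast hN
  have h3N : (1 : ℝ) ≤ 3 ^ N := one_le_pow₀ (by norm_num)
  have hRm1 : 1 ≤ Rm := by
    rw [hRm]
    nlinarith
  set M : ℕ := 7 * (⌈4 * (2 * Rm + 1)⌉₊ + 2) ^ 3 + N with hM
  refine ⟨ε' / 4, 2 * Rm, M, N * (M + 1), by positivity, by linarith, by linarith, ?_⟩
  intro r c hgood hms
  have hgood' : Good ε' r c := fun x y hx hy h1 h2 => hgood x y hx hy (by linarith) (by linarith)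
  obtain ⟨R, hR1, hR2, Q, hQN, hQd, hQc⟩ := hSIA hMRG N r c hN hms
  have hdat : Dat ε' r c Q R := ⟨he0, hgood', by linarith, hQd, hQc⟩
  obtain ⟨φ, hφ⟩ := hCLU ε' r c Q R hdat
  obtain ⟨n1, n2, n3, n4⟩ := hNB1 ε' r c Q R φ he1 hdat hφ
  have hdeg : ∀ (v : E3) (S : Finset E3), (∀ w ∈ S, Adj r (ε' / 4) φ v w) → S.card ≤ M := by
    intro v S hS
    have h1 := hNB3 hNB1 hPKG ε' r c Q R φ (ε' / 4) he1 hdat hφ (by positivity) (by linarith) v S hS
    refine h1.trans ?_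
    rw [hM]
    gcongr
  obtain ⟨Bl, hB1, hB2, hB3⟩ := hNB4 r c Q R φ (ε' / 4) M hφ hdeg
  have hnb : ∀ v w, v ∉ Bl → Adj r (ε' / 4) φ v w → ¬ blob r Q R φ w :=
    fun v w hv hvw hw => hv (hB3 v w hw hvw)
  have hnb0 : ∀ v, v ∉ Bl → ¬ blob r Q R φ v := fun v hv hb => hv (hB2 v hb)
  have key := hNB2 hNB1 ε' r c Q R φ (ε' / 4) he1 hdat hφ (by positivity) (by linarith)
  refine ⟨φ, Bl, ?_, hdeg, ?_, ?_, ?_⟩
  · intro x hx
    obtain ⟨h1, h2⟩ := n1 x hx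
    exact ⟨h1, by linarith⟩
  · intro v hv w w' hw hw' hc
    exact (key v w (hnb0 v hv) (hnb v w hv hw) hw).2 w' (hnb v w' hv hw') hw' hc
  · intro v w hv hw
    exact (key v w (hnb0 v hv) (hnb v w hv hw) hw).1
  · refine hB1.trans ?_
    gcongr

end Pool.Agent.helper78.FS
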